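import Pool.Agent.H654R3.CremQuery

set_option autoImplicit false

/-!
Query complexity of the continuous random energy model at the algorithmic threshold.

Idea of the proof.  Cut the `N` levels into blocks of `L` levels and fix `σ` in `(0, 1)`.  To a
visited vertex `w` at a block boundary attach the weight
`exp(-σ x cost(w) + (1 - σ) (θ X_w - |w| log 4))`, where `cost(w)` is the sum over the blocks
`u → w'` on the path to `w` of the number of queries made through `u` before the first query
through `w'`, and `x = b / L`.  As the costs of the blocks of one path add up to at most the number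
of queries, Hoelder's inequality and the independence of the unseen part of the tree show that the
expected total weight shrinks by a factor `exp(-2σ)` at each block, if `L` is large.  This yields
`X_w ≤ x_* N - c N` for all leaves queried among the first `C N` queries, outside an event of
probability tending to `0`.  For general `a` this is done on finitely many segments of levels.
-/

namespace Pool.Agent.Results.MP_f9dad2_pr.SuperlinearHitting

open MeasureTheory ProbabilityTheory Filter Topology Set
open scoped ENNReal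

open Pool.Agent.H654R3.Crem (Vertex meet sigmaF)

/-- `A(t) = ∫_0^t a(s) ds`. -/
noncomputable def A (a : ℝ → ℝ) (t : ℝ) : ℝ := ∫ s in (0 : ℝ)..t, a s

/-- `x_* = √(2 log 2) ∫_0^1 √(a(t)) dt`. -/
noncomputable def xStar (a : ℝ → ℝ) : ℝ := √(2 * Real.log 2) * ∫ t in (0 : ℝ)..1, √(a t)

/-- `a : [0,1] → [0,∞)` is Riemann integrable, in the form of Lebesgue's criterion (bounded, and
continuous at almost every point of `[0,1]`), with integral `1`. -/
structure Admissible (a : ℝ → ℝ) : Prop where
  nonneg : ∀ t ∈ Icc (0 : ℝ) 1, 0 ≤ a t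
  bounded : ∃ B : ℝ, ∀ t ∈ Icc (0 : ℝ) 1, a t ≤ B
  ae_continuous : ∀ᵐ t ∂(volume.restrict (Icc (0 : ℝ) 1)), ContinuousWithinAt a (Icc (0 : ℝ) 1) t
  integral_eq_one : ∫ t in (0 : ℝ)..1, a t = 1

/-- `(X_v)`, indexed by the vertices of `T_N`, is the centred Gaussian process with
`E[X_v X_w] = N A(|v ∧ w| / N)`. -/
structure IsCREM {Ω : Type*} [MeasurableSpace Ω] (P : Measure Ω) (a : ℝ → ℝ) (N : ℕ)
    (X : Vertex N → Ω → ℝ) : Prop where
  measurable : ∀ v, Measurable (X v)
  gaussian : IsGaussianProcess X P
  centred : ∀ v, ∫ ω, X v ω ∂P = 0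
  covariance : ∀ v w, ∫ ω, X v ω * X w ω ∂P = N * A a (((meet v.1 w.1).length : ℝ) / N)

/-- `v` is a randomised search algorithm on `T_N`: the `U n` are independent, uniform on `[0,1]`
and independent of `X`, and each query is measurable with respect to the sigma-algebra generated
by the previous queries, the values found there, and the variables `U` available so far. Here
`v n` is query number `n + 1` and `U n` is `U_{n+1}`. -/
structure IsSearch {Ω : Type*} [MeasurableSpace Ω] (P : Measure Ω) {N : ℕ}
    (X : Vertex N → Ω → ℝ) (U : ℕ → Ω → ℝ) (v : ℕ → Ω → Vertex N) : Prop where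
  measurable : ∀ n, Measurable (U n)
  uniform : ∀ n, P.map (U n) = volume.restrict (Icc (0 : ℝ) 1)
  independent : iIndepFun U P
  independent_of_X : IndepFun (fun ω w => X w ω) (fun ω n => U n ω) P
  adapted : ∀ n, Measurable[sigmaF X U v n, ⊤] (v n)

/-- `τ_y`, the number of the first query at a leaf with value at least `y` (infinite if there is
none). -/
noncomputable def hittingTime {Ω : Type*} {N : ℕ} (X : Vertex N → Ω → ℝ)
    (v : ℕ → Ω → Vertex N) (y : ℝ) (ω : Ω) : ℕ∞ :=
  sInf {m : ℕ∞ | ∃ n : ℕ, m = (n + 1 : ℕ) ∧ (v n ω).1.length = N ∧ y ≤ X (v n ω) ω}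

/-- For every admissible `a`, every `g(N) = o(N)`, every sequence of search algorithms and every
constant `C`, the hitting time `τ_N` of level `x_* N - g(N)` satisfies `P(τ_N ≤ C N) → 0`: that is,
`τ_N / N → ∞` in probability. -/
theorem result (a : ℝ → ℝ) (ha : Admissible a) (g : ℕ → ℝ)
    (hg : g =o[atTop] (fun N : ℕ => (N : ℝ)))
    {Ω : ℕ → Type*} [∀ N, MeasurableSpace (Ω N)] (P : ∀ N, Measure (Ω N))
    [∀ N, IsProbabilityMeasure (P N)]
    (X : ∀ N, Vertex N → Ω N → ℝ) (hX : ∀ N, IsCREM (P N) a N (X N))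
    (U : ∀ N, ℕ → Ω N → ℝ) (v : ∀ N, ℕ → Ω N → Vertex N)
    (hv : ∀ N, IsSearch (P N) (X N) (U N) (v N)) (C : ℝ) :
    Tendsto (fun N : ℕ => P N {ω | (hittingTime (X N) (v N) (xStar a * N - g N) ω : ℝ≥0∞) ≤
      ENNReal.ofReal (C * N)}) atTop (𝓝 0) := by
  obtain ⟨B, hB⟩ := ha.bounded
  -- covariances
  have hcov : ∀ N, ∀ u w : Vertex N, cov[X N u, X N w; P N] =
      (fun k : ℕ => (N : ℝ) * A a ((k : ℝ) / N)) (meet u.1 w.1).length := by
    intro N u w
    rw [covariance, (hX N).centred, (hX N).centred]
    simp only [sub_zero]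
    exact (hX N).covariance u w
  -- the increments
  have hlaw : ∀ N, ∀ w : List Bool, w ≠ [] → w.length ≤ N →
      (P N).map (Pool.Agent.H654R3.Crem.incr (X N) w) =
        gaussianReal 0 (Pool.Agent.H654R3.Crem.incVar a N w.length) := by
    intro N w hw hwN
    rw [Pool.Agent.H654R3.Crem.law_incr (hX N).measurable (hX N).gaussian (hX N).centred
      (fun k : ℕ => (N : ℝ) * A a ((k : ℝ) / N)) (hcov N) hw hwN]
    congr 1
    unfold Pool.Agent.H654R3.Crem.incVar
    congr 1
    have hlen : 1 ≤ w.length := List.length_pos_iff.2 hw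
    simp only [A]
    rw [Nat.cast_sub hlen, Nat.cast_one]
    ring
  have hmi : ∀ N w, Measurable (Pool.Agent.H654R3.Crem.incr (X N) w) := fun N w =>
    Pool.Agent.H654R3.Crem.measurable_incr (hX N).measurable w
  have hind : ∀ N, iIndepFun (fun i : List Bool ⊕ ℕ =>
      (Sum.elim (fun w => Pool.Agent.H654R3.Crem.incr (X N) w) (U N) i : Ω N → ℝ)) (P N) := by
    intro N
    refine Pool.Agent.H654R3.Crem.iIndepFun_sumElim
      (Pool.Agent.H654R3.Crem.indep_incr (hX N).measurable (hX N).gaussian
        (fun k : ℕ => (N : ℝ) * A a ((k : ℝ) / N)) (hcov N))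
      (hv N).independent ?_
    have hF : Measurable (fun (z : Vertex N → ℝ) (w : List Bool) =>
        Pool.Agent.H654R3.Crem.incr (fun u z => z u) w z) := by
      apply measurable_pi_lambda
      intro w
      exact Pool.Agent.H654R3.Crem.measurable_incr (fun u => measurable_pi_apply u) w
    exact (hv N).independent_of_X.comp hF measurable_id
  choose alg halg using fun N =>
    Pool.Agent.H654R3.Crem.exists_algorithm (X N) (U N) (v N) (hv N).adapted
  have hg' : Tendsto (fun N : ℕ => g N / N) atTop (𝓝 0) := hg.tendsto_div_nhds_zero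
  have hmain := Pool.Agent.H654R3.Crem.crem_lim ha.nonneg hB ha.ae_continuous ha.integral_eq_one
    g hg' C P (fun N w => Pool.Agent.H654R3.Crem.incr (X N) w) U hmi
    (fun N n => (hv N).measurable n) hind hlaw alg
  refine tendsto_of_tendsto_of_tendsto_of_le_of_le tendsto_const_nhds hmain
    (fun _ => bot_le) ?_
  intro N
  apply measure_mono_ae
  have hroot := Pool.Agent.H654R3.Crem.root_zero (hX N).measurable (hX N).gaussian (hX N).centred
    (fun k : ℕ => (N : ℝ) * A a ((k : ℝ) / N)) (by simp [A]) (hcov N)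
  filter_upwards [hroot] with ω hω hmem
  have hmem' : (hittingTime (X N) (v N) (xStar a * N - g N) ω : ℝ≥0∞) ≤
      ENNReal.ofReal (C * N) := hmem
  have hne : {m : ℕ∞ | ∃ n : ℕ, m = (n + 1 : ℕ) ∧ ((v N) n ω).1.length = N ∧
      xStar a * N - g N ≤ X N ((v N) n ω) ω}.Nonempty := by
    by_contra hcon
    rw [Set.not_nonempty_iff_eq_empty] at hcon
    unfold hittingTime at hmem'
    rw [hcon, sInf_empty] at hmem'
    simp at hmem'
  obtain ⟨t, ht, hlen, hval⟩ := csInf_mem hne
  have hτ : hittingTime (X N) (v N) (xStar a * N - g N) ω = (t + 1 : ℕ) := ht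
  rw [hτ] at hmem'
  refine ⟨t, ?_, ?_, ?_⟩
  · have h1 : ((t + 1 : ℕ) : ℝ≥0∞) ≤ ENNReal.ofReal (C * N) := by simpa using hmem'
    have h2 := (ENNReal.natCast_le_ofReal (Nat.succ_ne_zero t)).1 h1
    push_cast at h2
    exact h2
  · show (Pool.Agent.H654R3.Crem.query (alg N) _ _ t).length = N
    rw [halg N ω hω t]
    exact hlen
  · show _ ≤ Pool.Agent.H654R3.Crem.X _ (Pool.Agent.H654R3.Crem.query (alg N) _ _ t)
    rw [halg N ω hω t, Pool.Agent.H654R3.Crem.X_incr, hω, sub_zero]
    exact hval

end Pool.Agent.Results.MP_f9dad2_pr.SuperlinearHitting
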